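import Pool.Agent.Work.MP_aa9b22_lc.Twin

set_option autoImplicit false

namespace Pool.Agent.Results.MP_aa9b22_lc.StandardNumberings

open Pool.Agent.Work.MP_aa9b22_lc

/-- Standard numberings `π` of the finite presentations exist (onto, and the presentation with
number `e` is computable from `e`). There are constants `N` and `M` such that for every standard
numbering `π` the set of all `e` for which the group of `π e` is simple is `Π⁰₂`, and every `Π⁰₂`
set `B` is many-one reducible to it, by a reduction whose values are numbers of presentations with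
exactly `N` generators and `M` relators. -/
theorem result :
    (∃ π : ℕ → FinPres, Function.Surjective π ∧ Computable fun e => (π e).data) ∧
    ∃ N M : ℕ, ∀ π : ℕ → FinPres, Function.Surjective π → (Computable fun e => (π e).data) →
      (∃ R : ℕ × ℕ × ℕ → Prop, ComputablePred R ∧
        ∀ e, IsSimpleGroup (π e).Group ↔ ∀ x, ∃ y, R (e, x, y)) ∧
      ∀ B : ℕ → Prop,
        (∃ R : ℕ × ℕ × ℕ → Prop, ComputablePred R ∧ ∀ n, B n ↔ ∀ x, ∃ y, R (n, x, y)) →
        ∃ f : ℕ → ℕ, Computable f ∧ ∀ n,
          (π (f n)).gens = N ∧ (π (f n)).relators.length = M ∧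
          (B n ↔ IsSimpleGroup (π (f n)).Group) :=
  twin

end Pool.Agent.Results.MP_aa9b22_lc.StandardNumberings
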